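import Pool.Agent.Y280.UG.Basic

set_option autoImplicit false

open Set Metric Topology Filter

namespace Pool.Agent.Y280.UG

variable {𝕜 : Type*} [RCLike 𝕜] {E : Type*} [NormedAddCommGroup E] [NormedSpace 𝕜 E]

/-- the equality case of the triangle inequality in an inner product space -/
theorem inner_eq_case {H : Type*} [NormedAddCommGroup H] [InnerProductSpace 𝕜 H] {a b : H}
    (h : ‖a + b‖ = ‖a‖ + ‖b‖) : (‖b‖ : 𝕜) • a = (‖a‖ : 𝕜) • b := by
  have h1 : RCLike.re (inner 𝕜 a b) = ‖a‖ * ‖b‖ := by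
    have := norm_add_sq (𝕜 := 𝕜) a b
    rw [h] at this
    nlinarith
  have h2 : ‖inner 𝕜 a b‖ ≤ ‖a‖ * ‖b‖ := norm_inner_le_norm a b
  rw [← inner_eq_norm_mul_iff]
  have h4 : (inner 𝕜 a b : 𝕜) = (‖inner 𝕜 a b‖ : 𝕜) := by
    rw [← RCLike.norm_le_re_iff_eq_norm, h1]
    exact h2
  have h5 : ‖inner 𝕜 a b‖ = ‖a‖ * ‖b‖ := by
    have := congrArg RCLike.re h4
    rw [RCLike.ofReal_re, h1] at this
    exact this.symm
  rw [h4, h5]
  push_cast
  rfl

/-- Every separable normed space has an injective bounded operator into `ℓ²`. -/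
theorem exists_injective_l2 [TopologicalSpace.SeparableSpace E] :
    ∃ T : E →L[𝕜] lp (fun _ : ℕ => 𝕜) 2, Function.Injective T := by
  have hN : ∃ x : ℕ → E, DenseRange x := ⟨_, TopologicalSpace.denseRange_denseSeq E⟩
  obtain ⟨x, hx⟩ := hN
  choose f hf1 hf2 using fun n => exists_dual_vector'' 𝕜 (x n)
  have hto : (2 : ENNReal).toReal = 2 := by simp
  have hbd : ∀ (y : E) (s : Finset ℕ), ∑ i ∈ s, ‖((1 / 2 : 𝕜)) ^ i * f i y‖ ^ (2 : ENNReal).toReal ≤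
      (2 * ‖y‖) ^ (2 : ENNReal).toReal := by
    intro y s
    rw [hto, Real.rpow_two]
    have h1 : ∀ i ∈ s, ‖((1 / 2 : 𝕜)) ^ i * f i y‖ ^ (2 : ℝ) ≤ (1 / 2 : ℝ) ^ i * ‖y‖ ^ 2 := by
      intro i _
      rw [Real.rpow_two, norm_mul, norm_pow, mul_pow]
      have e1 : ‖(1 / 2 : 𝕜)‖ = 1 / 2 := by
        have : (1 / 2 : 𝕜) = ((1 / 2 : ℝ) : 𝕜) := by push_cast; rfl
        rw [this, norm_ofReal_nonneg (by norm_num)]
      have e2 : ‖f i y‖ ≤ ‖y‖ := by
        refine ((f i).le_opNorm y).trans ?_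
        exact mul_le_of_le_one_left (norm_nonneg _) (hf1 i)
      rw [e1]
      have e3 : ((1 / 2 : ℝ) ^ i) ^ 2 ≤ (1 / 2 : ℝ) ^ i := by
        have h0 : (0 : ℝ) ≤ (1 / 2) ^ i := by positivity
        have h1 : (1 / 2 : ℝ) ^ i ≤ 1 := pow_le_one₀ (by norm_num) (by norm_num)
        nlinarith
      have e4 : ‖f i y‖ ^ 2 ≤ ‖y‖ ^ 2 := by
        have := norm_nonneg (f i y)
        nlinarith
      exact mul_le_mul e3 e4 (by positivity) (by positivity)
    calc ∑ i ∈ s, ‖((1 / 2 : 𝕜)) ^ i * f i y‖ ^ (2 : ℝ) ≤ ∑ i ∈ s, (1 / 2 : ℝ) ^ i * ‖y‖ ^ 2 :=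
          Finset.sum_le_sum h1
      _ = (∑ i ∈ s, (1 / 2 : ℝ) ^ i) * ‖y‖ ^ 2 := by rw [Finset.sum_mul]
      _ ≤ 2 * ‖y‖ ^ 2 := by
          gcongr
          refine (summable_geometric_two.sum_le_tsum s (fun i _ => by positivity)).trans ?_
          rw [tsum_geometric_two]
      _ ≤ (2 * ‖y‖) ^ 2 := by nlinarith [norm_nonneg y, sq_nonneg ‖y‖]
  have hmem : ∀ y : E, Memℓp (fun i : ℕ => ((1 / 2 : 𝕜)) ^ i * f i y) 2 := fun y => memℓp_gen' (hbd y)
  let L : E →ₗ[𝕜] lp (fun _ : ℕ => 𝕜) 2 :=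
    { toFun := fun y => ⟨fun i => ((1 / 2 : 𝕜)) ^ i * f i y, hmem y⟩
      map_add' := by
        intro a b
        apply lp.ext
        funext i
        show ((1 / 2 : 𝕜)) ^ i * f i (a + b) = ((1 / 2 : 𝕜)) ^ i * f i a + ((1 / 2 : 𝕜)) ^ i * f i b
        rw [map_add, mul_add]
      map_smul' := by
        intro c a
        apply lp.ext
        funext i
        show ((1 / 2 : 𝕜)) ^ i * f i (c • a) = c * (((1 / 2 : 𝕜)) ^ i * f i a)
        rw [map_smul, smul_eq_mul]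
        ring }
  refine ⟨L.mkContinuous 2 (fun y => ?_), ?_⟩
  · exact lp.norm_le_of_forall_sum_le (by rw [hto]; norm_num) (by positivity) (hbd y)
  · rw [injective_iff_map_eq_zero]
    intro y hy
    have h0 : ∀ i, f i y = 0 := by
      intro i
      have h1 : ((1 / 2 : 𝕜)) ^ i * f i y = 0 := by
        have := congrArg (fun g : lp (fun _ : ℕ => 𝕜) 2 => (g : ℕ → 𝕜) i) hy
        exact this
      rcases mul_eq_zero.1 h1 with h2 | h2
      · exact absurd h2 (pow_ne_zero _ (by norm_num))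
      · exact h2
    by_contra hy0
    have hpos : 0 < ‖y‖ := norm_pos_iff.2 hy0
    obtain ⟨n, hn⟩ := hx.exists_dist_lt y (show 0 < ‖y‖ / 2 by positivity)
    rw [dist_eq_norm] at hn
    have h3 : ‖x n‖ ≤ ‖y - x n‖ := by
      have e1 : f n (x n - y) = (‖x n‖ : 𝕜) := by rw [map_sub, h0 n, sub_zero, hf2 n]
      have e2 := (f n).le_opNorm (x n - y)
      rw [e1, RCLike.norm_ofReal, abs_norm] at e2
      calc ‖x n‖ ≤ ‖f n‖ * ‖x n - y‖ := e2
        _ ≤ 1 * ‖x n - y‖ := by gcongr; exact hf1 n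
        _ = _ := by rw [one_mul, norm_sub_rev]
    have h4 : ‖y‖ ≤ ‖y - x n‖ + ‖x n‖ := by
      calc ‖y‖ = ‖(y - x n) + x n‖ := by congr 1; abel
        _ ≤ _ := norm_add_le _ _
    linarith

/-- Every separable normed space has an equivalent norm that is rotund in every direction. -/
theorem exists_rot_separable [TopologicalSpace.SeparableSpace E] :
    ∃ q : Seminorm 𝕜 E, IsEquivNorm q ∧ ∀ u : E, u ≠ 0 → RotDir q u := by
  obtain ⟨T, hT⟩ := exists_injective_l2 (𝕜 := 𝕜) (E := E)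
  set q : Seminorm 𝕜 E := normSeminorm 𝕜 E + (normSeminorm 𝕜 (lp (fun _ : ℕ => 𝕜) 2)).comp (T : E →ₗ[𝕜] _)
    with hq
  have hqa : ∀ x, q x = ‖x‖ + ‖T x‖ := fun x => rfl
  refine ⟨q, ⟨1, 1 + ‖T‖, one_pos, by positivity, fun x => ⟨?_, ?_⟩⟩, ?_⟩
  · rw [hqa, one_mul]; linarith [norm_nonneg (T x)]
  · rw [hqa, add_mul, one_mul]; linarith [T.le_opNorm x]
  · intro u hu v hv
    rw [hqa, hqa, hqa, map_add] at hv
    have h1 := norm_add_le u v
    have h2 := norm_add_le (T u) (T v)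
    have h3 := inner_eq_case (𝕜 := 𝕜) (show ‖T u + T v‖ = ‖T u‖ + ‖T v‖ by linarith)
    have hTu : T u ≠ 0 := fun h => hu (hT (by rw [h, map_zero]))
    have hn : 0 < ‖T u‖ := norm_pos_iff.2 hTu
    have hn𝕜 : ((‖T u‖ : ℝ) : 𝕜) ≠ 0 := by exact_mod_cast hn.ne'
    have h4 : ((‖T v‖ : ℝ) : 𝕜) • u = ((‖T u‖ : ℝ) : 𝕜) • v := by
      apply hT
      rw [map_smul, map_smul]
      exact h3
    refine ⟨‖T v‖ / ‖T u‖, by positivity, ?_⟩
    push_cast
    rw [div_eq_inv_mul, mul_smul, h4, smul_smul, inv_mul_cancel₀ hn𝕜, one_smul]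

end Pool.Agent.Y280.UG
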