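import Pool.Agent.Y280.UG.Basic

set_option autoImplicit false

open Set Metric Topology Filter

namespace Pool.Agent.Y280.UG

variable {𝕜 : Type*} [RCLike 𝕜] {E : Type*} [NormedAddCommGroup E] [NormedSpace 𝕜 E]

/-! ### The norm `max (q x) (C |f x|)` -/

/-- the maximum of `q` and a multiple of `|f|` -/
noncomputable def maxN (q : Seminorm 𝕜 E) (f : E →L[𝕜] 𝕜) (C : NNReal) : Seminorm 𝕜 E :=
  q ⊔ C • (normSeminorm 𝕜 𝕜).comp (f : E →ₗ[𝕜] 𝕜)

theorem maxN_apply (q : Seminorm 𝕜 E) (f : E →L[𝕜] 𝕜) (C : NNReal) (x : E) :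
    maxN q f C x = max (q x) (C * ‖f x‖) := by
  rw [maxN, Seminorm.sup_apply]
  rfl

theorem maxN_equiv {q : Seminorm 𝕜 E} (hq : IsEquivNorm q) (f : E →L[𝕜] 𝕜) (C : NNReal) :
    IsEquivNorm (maxN q f C) := by
  obtain ⟨a, b, ha, hb, hab⟩ := hq
  refine ⟨a, b + C * ‖f‖, ha, by positivity, fun x => ⟨?_, ?_⟩⟩
  · rw [maxN_apply]
    exact (hab x).1.trans (le_max_left _ _)
  · rw [maxN_apply]
    have h1 : (C : ℝ) * ‖f x‖ ≤ C * ‖f‖ * ‖x‖ := by
      rw [mul_assoc]
      exact mul_le_mul_of_nonneg_left (f.le_opNorm x) C.2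
    have h2 : 0 ≤ (C : ℝ) * ‖f‖ * ‖x‖ := by positivity
    have h3 : 0 ≤ b * ‖x‖ := by positivity
    rw [add_mul]
    exact max_le (by linarith [(hab x).2]) (by linarith)

theorem maxN_rotDir {q : Seminorm 𝕜 E} (hq : ∀ u : E, u ≠ 0 → RotDir q u) {f : E →L[𝕜] 𝕜} {C : NNReal}
    {u : E} (hu : C * ‖f u‖ < q u) : RotDir (maxN q f C) u := by
  intro v hv
  have hu0 : u ≠ 0 := by
    rintro rfl
    simp at hu
  rw [maxN_apply, maxN_apply, maxN_apply] at hv
  have h1 := map_add_le_add q u v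
  have h2 : (C : ℝ) * ‖f (u + v)‖ ≤ C * ‖f u‖ + C * ‖f v‖ := by
    rw [map_add, ← mul_add]
    exact mul_le_mul_of_nonneg_left (norm_add_le _ _) C.2
  have h3 := le_max_left (q u) (C * ‖f u‖)
  have h4 := le_max_left (q v) (C * ‖f v‖)
  have h5 := le_max_right (q v) (C * ‖f v‖)
  rcases max_choice (q (u + v)) (C * ‖f (u + v)‖) with h | h
  · rw [h] at hv
    exact hq u hu0 v (by linarith)
  · rw [h] at hv
    linarith

/-- If two independent directions are available, there is a norm with all uniqueness sets of compact sets of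
second category that is not strictly convex. -/
theorem exists_two {q : Seminorm 𝕜 E} [CompleteSpace E] (hq : IsEquivNorm q)
    (hq' : ∀ u : E, u ≠ 0 → RotDir q u) {f : E →L[𝕜] 𝕜} {z h : E} (hz : f z = 1) (hh : h ≠ 0) (hfh : f h = 0) :
    ∃ p : Seminorm 𝕜 E, IsEquivNorm p ∧ ¬ IsStrictlyConvex p ∧
      ∀ G : Set E, IsCompact G → ¬ IsMeagre (uniqSet p G) := by
  have hqh := hq.pos hh
  obtain ⟨C, hC⟩ : ∃ C : NNReal, (C : ℝ) = q z + 1 := ⟨⟨q z + 1, by have := apply_nonneg q z; linarith⟩, rfl⟩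
  have hC0 : (0 : ℝ) < C := by rw [hC]; have := apply_nonneg q z; linarith
  refine ⟨maxN q f C, maxN_equiv hq f C, ?_, ?_⟩
  · intro hs
    set h' := (((q h)⁻¹ : ℝ) : 𝕜) • h with hh'
    have hqh' : q h' = 1 := by rw [hh', p_smul_real q (by positivity), inv_mul_cancel₀ hqh.ne']
    have hfh' : f h' = 0 := by rw [hh', map_smul, hfh, smul_zero]
    have hh0 : h' ≠ 0 := by
      intro h0
      rw [h0, map_zero] at hqh'
      exact zero_ne_one hqh'
    have key : ∀ t : ℝ, 0 ≤ t → t ≤ 1 → maxN q f C (z + (t : 𝕜) • h') = C := by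
      intro t ht0 ht1
      rw [maxN_apply, map_add f, map_smul f, hz, hfh', smul_zero, add_zero, norm_one, mul_one]
      apply max_eq_right
      have := map_add_le_add q z ((t : 𝕜) • h')
      rw [p_smul_real q ht0, hqh'] at this
      rw [hC]
      linarith
    set c : ℝ := (C : ℝ)⁻¹ with hc
    have hc0 : 0 < c := by positivity
    have k0 := key 0 le_rfl zero_le_one
    have k1 := key 1 zero_le_one le_rfl
    have k2 := key (1 / 2) (by norm_num) (by norm_num)
    rw [RCLike.ofReal_zero, zero_smul, add_zero] at k0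
    rw [RCLike.ofReal_one, one_smul] at k1
    have h1 := hs ((c : 𝕜) • z) ((c : 𝕜) • (z + h'))
      (by rw [p_smul_real _ hc0.le, k0, hc, inv_mul_cancel₀ hC0.ne'])
      (by rw [p_smul_real _ hc0.le, k1, hc, inv_mul_cancel₀ hC0.ne'])
      (by
        intro h
        have hc𝕜 : (c : 𝕜) ≠ 0 := by exact_mod_cast hc0.ne'
        have h2 : z = z + h' := smul_right_injective E hc𝕜 h
        exact hh0 (by simpa using h2.symm))
    have h3 : (1 / 2 : 𝕜) • ((c : 𝕜) • z + (c : 𝕜) • (z + h')) = (c : 𝕜) • (z + ((1 / 2 : ℝ) : 𝕜) • h') := by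
      push_cast
      module
    rw [h3, p_smul_real _ hc0.le, k2, hc, inv_mul_cancel₀ hC0.ne'] at h1
    exact lt_irrefl _ h1
  · intro G hG hmeag
    set p := maxN q f C with hp
    have hpe : IsEquivNorm p := maxN_equiv hq f C
    obtain ⟨a, b, ha, hb, hab⟩ := id hq
    obtain ⟨R, hR⟩ := hG.isBounded.exists_norm_le
    set M := 1 + max R 0 with hM
    have hM0 : 0 < M := by have := le_max_right R 0; linarith
    set T := (C * ‖f‖ * M + b * M + 1) / q h with hT
    have hT0 : 0 < T := by positivity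
    set W := ball ((T : 𝕜) • h) 1 with hW
    have hWD : ∀ x ∈ W, ∀ g ∈ G, C * ‖f (x - g)‖ < q (x - g) := by
      intro x hx g hg
      rw [hW, mem_ball, dist_eq_norm] at hx
      set w := x - g - (T : 𝕜) • h with hw
      have hwn : ‖w‖ ≤ M := by
        have : w = (x - (T : 𝕜) • h) - g := by rw [hw]; abel
        rw [this]
        refine (norm_sub_le _ _).trans ?_
        have := (hR g hg).trans (le_max_left R 0)
        linarith
      have hxg : x - g = (T : 𝕜) • h + w := by rw [hw]; abel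
      have h1 : f (x - g) = f w := by rw [hxg, map_add, map_smul, hfh, smul_zero, zero_add]
      have h2 : (C : ℝ) * ‖f (x - g)‖ ≤ C * ‖f‖ * M := by
        rw [h1, mul_assoc]
        refine mul_le_mul_of_nonneg_left ((f.le_opNorm w).trans ?_) C.2
        exact mul_le_mul_of_nonneg_left hwn (norm_nonneg _)
      have h3 : T * q h ≤ q (x - g) + b * M := by
        have e1 : (T : 𝕜) • h = (x - g) - w := by rw [hxg]; abel
        have e2 : q ((T : 𝕜) • h) ≤ q (x - g) + q w := by rw [e1]; exact map_sub_le_add q _ _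
        rw [p_smul_real q hT0.le] at e2
        have e3 := (hab w).2.trans (mul_le_mul_of_nonneg_left hwn hb.le)
        linarith
      have h4 : T * q h = C * ‖f‖ * M + b * M + 1 := by rw [hT]; field_simp
      linarith
    have hdW : ∀ V : Set E, IsOpen V → V ⊆ W → V.Nonempty → (V ∩ uniqSet p G).Nonempty := by
      intro V hV hVW ⟨x, hx⟩
      by_contra hcon
      have hVG : ∀ x ∈ V, x ∉ uniqSet p G := fun x hx hx2 => hcon ⟨x, hx, hx2⟩
      have h1 : (nearestPoints p G x).Nonempty := by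
        by_contra h0
        rw [not_nonempty_iff_eq_empty] at h0
        exact hVG x hx (by rw [uniqSet, mem_setOf_eq, h0]; exact subsingleton_empty)
      obtain ⟨g, hg⟩ := h1
      exact not_rotDir hpe hV hVG hx hg (maxN_rotDir hq' (hWD x (hVW hx) g (mem_nearest.1 hg).1))
    have hGδ : IsGδ (uniqSet p G) := isGδ_uniqSet hpe (ofCompact hG)
    set A := uniqSet p G ∪ (closure W)ᶜ with hA
    have hAG : IsGδ A := hGδ.union (isClosed_closure.isOpen_compl.isGδ)
    have hAd : Dense A := by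
      rw [dense_iff_inter_open]
      intro V hV hVn
      by_cases hVW : (V ∩ W).Nonempty
      · obtain ⟨x, hx, hx2⟩ := hdW (V ∩ W) (hV.inter isOpen_ball) inter_subset_right hVW
        exact ⟨x, hx.1, Or.inl hx2⟩
      · obtain ⟨x, hx⟩ := hVn
        refine ⟨x, hx, Or.inr fun hxc => hVW ?_⟩
        exact mem_closure_iff.1 hxc V hV hx
    have hres : A ∈ residual E := residual_of_dense_Gδ hAG hAd
    have hres2 : (uniqSet p G)ᶜ ∈ residual E := hmeag
    have hd : Dense (A ∩ (uniqSet p G)ᶜ) := dense_of_mem_residual (inter_mem hres hres2)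
    obtain ⟨x, hxW, hxA, hxU⟩ := hd.inter_open_nonempty W isOpen_ball ⟨(T : 𝕜) • h, mem_ball_self one_pos⟩
    rcases hxA with h1 | h1
    · exact hxU h1
    · exact h1 (subset_closure hxW)

/-! ### Finite-dimensional spaces -/

/-- In a finite-dimensional space strict convexity is necessary already for compact sets. -/
theorem strict_of_dense [FiniteDimensional 𝕜 E] {p : Seminorm 𝕜 E} (hp : IsEquivNorm p)
    (hG : ∀ G : Set E, IsCompact G → Dense (uniqSet p G)) : IsStrictlyConvex p := by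
  intro x y hx hy hxy
  by_contra hlt
  push Not at hlt
  letI : NormedSpace ℝ E := NormedSpace.restrictScalars ℝ 𝕜 E
  haveI : IsScalarTower ℝ 𝕜 E := IsScalarTower.of_algebraMap_smul fun r x => rfl
  set w := (1 / 2 : 𝕜) • (x + y) with hw
  obtain ⟨φ, hφ⟩ := RCLike.geometric_hahn_banach_open_point (𝕜 := 𝕜) (s := p.ball 0 1) (x := w)
    (p.convex_ball 0 1)
    (by
      have : p.ball 0 1 = {v | p v < 1} := by ext v; simp [Seminorm.mem_ball]
      rw [this]
      exact isOpen_lt hp.continuous continuous_const)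
    (by rw [Seminorm.mem_ball, sub_zero]; exact not_lt.2 hlt)
  set m := RCLike.re (φ w) with hm
  have hm0 : 0 < m := by
    have := hφ 0 (by rw [Seminorm.mem_ball]; simp)
    simpa using this
  have hle : ∀ v, RCLike.re (φ v) ≤ m * p v := by
    intro v
    by_contra hc
    push Not at hc
    have hv : RCLike.re (φ v) > 0 := lt_of_le_of_lt (by have := apply_nonneg p v; positivity) hc
    set s : ℝ := m / RCLike.re (φ v) with hs
    have hs0 : 0 < s := by positivity
    have h1 := hφ ((s : 𝕜) • v) (by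
      rw [Seminorm.mem_ball, sub_zero, p_smul_real p hs0.le, hs, div_mul_eq_mul_div, div_lt_one hv]
      exact hc)
    rw [map_smul, smul_eq_mul, RCLike.re_ofReal_mul, hs, div_mul_cancel₀ _ hv.ne'] at h1
    exact lt_irrefl _ h1
  have hwxy : m = (RCLike.re (φ x) + RCLike.re (φ y)) / 2 := by
    have : (1 / 2 : 𝕜) = ((1 / 2 : ℝ) : 𝕜) := by push_cast; rfl
    rw [hm, hw, map_smul, map_add, smul_eq_mul, this, RCLike.re_ofReal_mul, map_add]
    ring
  have hx1 := hle x
  have hy1 := hle y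
  rw [hx, mul_one] at hx1
  rw [hy, mul_one] at hy1
  have hxm : RCLike.re (φ x) = m := by linarith
  have hym : RCLike.re (φ y) = m := by linarith
  haveI : ProperSpace E := FiniteDimensional.proper_rclike 𝕜 E
  set R := ‖w‖ + 1 + (‖φ‖ * (‖w‖ + 1) / m) * (‖x‖ + ‖y‖) with hR
  set G : Set E := {g | RCLike.re (φ g) = 0} ∩ closedBall 0 R with hGdef
  have hGc : IsCompact G :=
    (isCompact_closedBall _ _).inter_left (isClosed_eq (RCLike.continuous_re.comp φ.continuous) continuous_const)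
  -- the open set of points near `w` with positive real part
  obtain ⟨u, ⟨hu1, hu2⟩, hu3⟩ := (hG G hGc).inter_open_nonempty
    ({v | 0 < RCLike.re (φ v)} ∩ ball w 1)
    ((isOpen_lt continuous_const (RCLike.continuous_re.comp φ.continuous)).inter isOpen_ball)
    ⟨w, hm0, mem_ball_self one_pos⟩
  have hu1' : 0 < RCLike.re (φ u) := hu1
  rw [mem_ball, dist_eq_norm] at hu2
  have hun : ‖u‖ ≤ ‖w‖ + 1 := by
    have : u = w + (u - w) := by abel
    rw [this]
    exact (norm_add_le _ _).trans (by linarith)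
  set s : ℝ := RCLike.re (φ u) / m with hs
  have hs0 : 0 < s := by positivity
  have hsle : s ≤ ‖φ‖ * (‖w‖ + 1) / m := by
    rw [hs]
    gcongr
    exact (RCLike.re_le_norm _).trans ((φ.le_opNorm u).trans (mul_le_mul_of_nonneg_left hun (norm_nonneg _)))
  have hnear : ∀ v : E, p v = 1 → RCLike.re (φ v) = m → ‖v‖ ≤ ‖x‖ + ‖y‖ → u - (s : 𝕜) • v ∈ nearestPoints p G u := by
    intro v hv1 hv2 hv3
    rw [mem_nearest]
    refine ⟨⟨?_, ?_⟩, ?_⟩
    · show RCLike.re (φ (u - (s : 𝕜) • v)) = 0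
      rw [map_sub, map_smul, smul_eq_mul, map_sub, RCLike.re_ofReal_mul, hv2, hs]
      field_simp
      ring
    · rw [mem_closedBall_zero_iff]
      calc ‖u - (s : 𝕜) • v‖ ≤ ‖u‖ + ‖(s : 𝕜) • v‖ := norm_sub_le _ _
        _ = ‖u‖ + s * ‖v‖ := by rw [norm_smul, norm_ofReal_nonneg hs0.le]
        _ ≤ _ := by rw [hR]; gcongr
    · intro g hg
      have e : u - (u - (s : 𝕜) • v) = (s : 𝕜) • v := by abel
      rw [e, p_smul_real p hs0.le, hv1, mul_one]
      have h1 := hle (u - g)
      have hg0 : RCLike.re (φ g) = 0 := hg.1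
      rw [map_sub, map_sub, hg0, sub_zero] at h1
      rw [hs, div_le_iff₀ hm0, mul_comm]
      exact h1
  have h1 := hu3 (hnear x hx hxm (by linarith [norm_nonneg y])) (hnear y hy hym (by linarith [norm_nonneg x]))
  have h2 : (s : 𝕜) • x = (s : 𝕜) • y := sub_right_injective h1
  have hs𝕜 : (s : 𝕜) ≠ 0 := by exact_mod_cast hs0.ne'
  exact hxy (smul_right_injective E hs𝕜 h2)

/-- In dimension at most one every norm is strictly convex. -/
theorem strict_of_rank_le_one (h : Module.rank 𝕜 E ≤ 1) (p : Seminorm 𝕜 E) : IsStrictlyConvex p := by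
  intro x y hx hy hxy
  obtain ⟨v, hv⟩ := rank_le_one_iff.1 h
  obtain ⟨a, rfl⟩ := hv x
  obtain ⟨b, rfl⟩ := hv y
  rw [map_smul_eq_mul] at hx hy
  have hab : a ≠ b := fun h => hxy (by rw [h])
  have hpv : 0 < p v := by
    rcases (apply_nonneg p v).lt_or_eq with h1 | h1
    · exact h1
    · rw [← h1, mul_zero] at hx; exact absurd hx zero_ne_one
  have hn : ‖a‖ = ‖b‖ := mul_right_cancel₀ hpv.ne' (hx.trans hy.symm)
  have hp1 := parallelogram_law_with_norm 𝕜 a b
  have hd : 0 < ‖a - b‖ := norm_pos_iff.2 (sub_ne_zero.2 hab)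
  have hlt : ‖a + b‖ < 2 * ‖a‖ := by
    have h0 := norm_nonneg a
    have h1 := norm_nonneg (a + b)
    rw [← hn] at hp1
    nlinarith
  rw [← add_smul, smul_smul, map_smul_eq_mul, norm_mul]
  have : ‖(1 / 2 : 𝕜)‖ = 1 / 2 := by
    have : (1 / 2 : 𝕜) = ((1 / 2 : ℝ) : 𝕜) := by push_cast; rfl
    rw [this, norm_ofReal_nonneg (by norm_num)]
  rw [this]
  nlinarith

/-- Two independent directions from the dimension. -/
theorem exists_dirs (h : 2 ≤ Module.rank 𝕜 E) : ∃ (f : E →L[𝕜] 𝕜) (z h : E), f z = 1 ∧ h ≠ 0 ∧ f h = 0 := by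
  have h1 : ¬ Module.rank 𝕜 E ≤ 1 := by
    intro hle
    have : (2 : Cardinal) ≤ 1 := h.trans hle
    exact absurd this (by norm_num)
  have hne : ∃ z : E, z ≠ 0 := by
    by_contra hcon
    push Not at hcon
    apply h1
    rw [rank_le_one_iff]
    exact ⟨0, fun w => ⟨0, by rw [hcon w, smul_zero]⟩⟩
  obtain ⟨z₀, hz₀⟩ := hne
  obtain ⟨g, -, hg⟩ := exists_dual_vector 𝕜 z₀ (norm_ne_zero_iff.2 hz₀)
  have hz0 : ((‖z₀‖ : ℝ) : 𝕜) ≠ 0 := by exact_mod_cast norm_ne_zero_iff.2 hz₀
  set z := ((‖z₀‖ : ℝ) : 𝕜)⁻¹ • z₀ with hz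
  have hgz : g z = 1 := by rw [hz, map_smul, hg, smul_eq_mul, inv_mul_cancel₀ hz0]
  by_contra hcon
  push Not at hcon
  apply h1
  rw [rank_le_one_iff]
  refine ⟨z, fun w => ⟨g w, ?_⟩⟩
  by_contra hne
  have h2 : w - g w • z ≠ 0 := fun h0 => hne (sub_eq_zero.1 h0).symm
  exact hcon g z _ hgz h2 (by rw [map_sub, map_smul, hgz, smul_eq_mul, mul_one, sub_self])

end Pool.Agent.Y280.UG
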