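import Pool.Agent.Y280.UG.Inf
import Pool.Agent.Y280.UG.Two
import Pool.Agent.Y280.UG.Sep

set_option autoImplicit false

open Set Metric Topology Filter

namespace Pool.Agent.Y280.UG

variable {𝕜 : Type*} [RCLike 𝕜] {E : Type*} [NormedAddCommGroup E] [NormedSpace 𝕜 E]

theorem exists_rot (hE : TopologicalSpace.SeparableSpace E ∨
    ∃ q : Seminorm 𝕜 E, IsEquivNorm q ∧ IsStrictlyConvex q) :
    ∃ q : Seminorm 𝕜 E, IsEquivNorm q ∧ ∀ u : E, u ≠ 0 → RotDir q u := by
  rcases hE with h | ⟨q, hq, hs⟩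
  · exact exists_rot_separable
  · exact ⟨q, hq, fun u hu => rotDir_of_strict hq hs hu⟩

theorem two_le_rank (h : ¬ FiniteDimensional 𝕜 E) : 2 ≤ Module.rank 𝕜 E := by
  have h1 : Cardinal.aleph0 ≤ Module.rank 𝕜 E := by
    by_contra hc
    push Not at hc
    exact h (Module.rank_lt_aleph0_iff.1 hc)
  exact (Cardinal.natCast_le_aleph0 (n := 2)).trans h1

end Pool.Agent.Y280.UG
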