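import Mathlib

set_option autoImplicit false

open Set Metric Topology Filter

namespace Pool.Agent.Y280.UG

variable {𝕜 : Type*} [RCLike 𝕜] {E : Type*} [NormedAddCommGroup E] [NormedSpace 𝕜 E]

/-- `p` is an equivalent norm on `E`. -/
def IsEquivNorm (p : Seminorm 𝕜 E) : Prop :=
  ∃ a b : ℝ, 0 < a ∧ 0 < b ∧ ∀ x, a * ‖x‖ ≤ p x ∧ p x ≤ b * ‖x‖

/-- The norm `p` is strictly convex. -/
def IsStrictlyConvex (p : Seminorm 𝕜 E) : Prop :=
  ∀ x y, p x = 1 → p y = 1 → x ≠ y → p ((1 / 2 : 𝕜) • (x + y)) < 1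

/-- The set of nearest points of `x` in `G` for the norm `p`. -/
def nearestPoints (p : Seminorm 𝕜 E) (G : Set E) (x : E) : Set E :=
  {g | g ∈ G ∧ p (x - g) = sInf ((fun h => p (x - h)) '' G)}

/-- The set of all `x` with at most one nearest point in `G` for the norm `p`. -/
def uniqSet (p : Seminorm 𝕜 E) (G : Set E) : Set E :=
  {x | (nearestPoints p G x).Subsingleton}

/-- `G` is closed and boundedly compact: its intersections with closed balls are compact. -/
def ClosedBoundedlyCompact (G : Set E) : Prop := ∀ R : ℝ, IsCompact (G ∩ closedBall 0 R)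

theorem mem_nearest {p : Seminorm 𝕜 E} {G : Set E} {x g : E} :
    g ∈ nearestPoints p G x ↔ g ∈ G ∧ ∀ h ∈ G, p (x - g) ≤ p (x - h) := by
  have hb : BddBelow ((fun h => p (x - h)) '' G) := ⟨0, by rintro _ ⟨h, _, rfl⟩; exact apply_nonneg p _⟩
  constructor
  · rintro ⟨h1, h2⟩
    refine ⟨h1, fun h hh => ?_⟩
    rw [h2]
    exact csInf_le hb ⟨h, hh, rfl⟩
  · rintro ⟨h1, h2⟩
    refine ⟨h1, le_antisymm ?_ (csInf_le hb ⟨g, h1, rfl⟩)⟩
    refine le_csInf ⟨_, g, h1, rfl⟩ ?_
    rintro _ ⟨h, hh, rfl⟩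
    exact h2 h hh

theorem IsEquivNorm.continuous {p : Seminorm 𝕜 E} (hp : IsEquivNorm p) : Continuous p := by
  obtain ⟨a, b, ha, hb, h⟩ := hp
  have hL : LipschitzWith b.toNNReal p := by
    refine LipschitzWith.of_dist_le_mul fun x y => ?_
    rw [Real.dist_eq, dist_eq_norm, Real.coe_toNNReal b hb.le]
    exact (abs_sub_map_le_sub p x y).trans (h _).2
  exact hL.continuous

theorem IsEquivNorm.eq_zero {p : Seminorm 𝕜 E} (hp : IsEquivNorm p) {x : E} (h : p x = 0) : x = 0 := by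
  obtain ⟨a, b, ha, hb, h1⟩ := hp
  have := (h1 x).1
  rw [h] at this
  have h2 : ‖x‖ ≤ 0 := by
    by_contra hc
    push Not at hc
    have : 0 < a * ‖x‖ := mul_pos ha hc
    linarith
  exact norm_le_zero_iff.1 h2

theorem IsEquivNorm.pos {p : Seminorm 𝕜 E} (hp : IsEquivNorm p) {x : E} (h : x ≠ 0) : 0 < p x :=
  lt_of_le_of_ne (apply_nonneg p x) (fun h0 => h (hp.eq_zero h0.symm))

theorem ofCompact {G : Set E} (hG : IsCompact G) : ClosedBoundedlyCompact G :=
  fun _ => hG.inter_right isClosed_closedBall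

theorem cbc_closed {G : Set E} (hG : ClosedBoundedlyCompact G) : IsClosed G := by
  rw [← isSeqClosed_iff_isClosed]
  intro x y hx hxy
  obtain ⟨R, hR⟩ := hxy.norm.bddAbove_range
  have h1 : ∀ n, x n ∈ G ∩ closedBall 0 R := fun n =>
    ⟨hx n, by rw [mem_closedBall_zero_iff]; exact hR ⟨n, rfl⟩⟩
  exact ((hG R).isClosed.mem_of_tendsto hxy (Eventually.of_forall h1)).1

theorem isGδ_uniqSet {p : Seminorm 𝕜 E} (hp : IsEquivNorm p) {G : Set E} (hG : ClosedBoundedlyCompact G) :
    IsGδ (uniqSet p G) := by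
  have hpc := hp.continuous
  have hcl : ∀ n : ℕ, IsClosed {x : E | ∃ g ∈ nearestPoints p G x, ∃ g' ∈ nearestPoints p G x,
      1 / ((n : ℝ) + 1) ≤ dist g g'} := by
    intro n
    rw [← isSeqClosed_iff_isClosed]
    intro x y hx hxy
    choose g hg g' hg' h3 using hx
    simp only [mem_nearest] at hg hg'
    obtain ⟨a, b, ha, hb, hab⟩ := id hp
    obtain ⟨R, hR⟩ := hxy.norm.bddAbove_range
    have hR' : ∀ k, ‖x k‖ ≤ R := fun k => hR ⟨k, rfl⟩
    have hR0 : 0 ≤ R := (norm_nonneg _).trans (hR' 0)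
    set M := R + b / a * (R + ‖g 0‖) with hM
    have hbd : ∀ k, ∀ w ∈ G, (∀ h ∈ G, p (x k - w) ≤ p (x k - h)) → w ∈ G ∩ closedBall 0 M := by
      intro k w hw hwn
      refine ⟨hw, ?_⟩
      rw [mem_closedBall_zero_iff]
      have e1 := hwn (g 0) (hg 0).1
      have e2 := (hab (x k - w)).1
      have e3 := (hab (x k - g 0)).2
      have e4 : ‖x k - g 0‖ ≤ R + ‖g 0‖ := (norm_sub_le _ _).trans (by linarith [hR' k])
      have e5 : a * ‖x k - w‖ ≤ b * (R + ‖g 0‖) :=
        (e2.trans (e1.trans e3)).trans (mul_le_mul_of_nonneg_left e4 hb.le)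
      have e6 : ‖x k - w‖ ≤ b / a * (R + ‖g 0‖) := by
        rw [div_mul_eq_mul_div, le_div_iff₀ ha]
        linarith
      have e7 : ‖w‖ ≤ ‖x k‖ + ‖x k - w‖ := by
        calc ‖w‖ = ‖x k - (x k - w)‖ := by congr 1; abel
          _ ≤ _ := norm_sub_le _ _
      linarith [hR' k]
    have hK : IsCompact ((G ∩ closedBall 0 M) ×ˢ (G ∩ closedBall 0 M)) := (hG M).prod (hG M)
    obtain ⟨q, hq, φ, hφ, hlim⟩ := hK.tendsto_subseq (x := fun k => (g k, g' k))
      (fun k => ⟨hbd k _ (hg k).1 (hg k).2, hbd k _ (hg' k).1 (hg' k).2⟩)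
    have l1 : Tendsto (fun k => g (φ k)) atTop (𝓝 q.1) := (continuous_fst.tendsto _).comp hlim
    have l2 : Tendsto (fun k => g' (φ k)) atTop (𝓝 q.2) := (continuous_snd.tendsto _).comp hlim
    have lx : Tendsto (fun k => x (φ k)) atTop (𝓝 y) := hxy.comp hφ.tendsto_atTop
    refine ⟨q.1, mem_nearest.2 ⟨hq.1.1, fun h hh => ?_⟩, q.2, mem_nearest.2 ⟨hq.2.1, fun h hh => ?_⟩, ?_⟩
    · exact le_of_tendsto_of_tendsto' ((hpc.tendsto _).comp (lx.sub l1))
        ((hpc.tendsto _).comp (lx.sub tendsto_const_nhds)) fun k => (hg (φ k)).2 h hh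
    · exact le_of_tendsto_of_tendsto' ((hpc.tendsto _).comp (lx.sub l2))
        ((hpc.tendsto _).comp (lx.sub tendsto_const_nhds)) fun k => (hg' (φ k)).2 h hh
    · exact ge_of_tendsto' (l1.dist l2) fun k => h3 (φ k)
  have heq : uniqSet p G = ⋂ n : ℕ, {x : E | ∃ g ∈ nearestPoints p G x, ∃ g' ∈ nearestPoints p G x,
      1 / ((n : ℝ) + 1) ≤ dist g g'}ᶜ := by
    ext x
    simp only [mem_iInter, mem_compl_iff, mem_setOf_eq, uniqSet]
    constructor
    · rintro hx n ⟨g, hg, g', hg', h3⟩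
      have := hx hg hg'
      rw [this, dist_self] at h3
      have : (0 : ℝ) < 1 / ((n : ℝ) + 1) := by positivity
      linarith
    · intro hx g hg g' hg'
      by_contra hne
      obtain ⟨n, hn⟩ := exists_nat_one_div_lt (dist_pos.2 hne)
      exact hx n ⟨g, hg, g', hg', hn.le⟩
  rw [heq]
  exact IsGδ.iInter_of_isOpen fun n => (hcl n).isOpen_compl

/-- `u` is a direction of strict convexity of `p`: equality in the triangle inequality for `u, v`
forces `v` to be a nonnegative multiple of `u`. -/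
def RotDir (p : Seminorm 𝕜 E) (u : E) : Prop :=
  ∀ v, p (u + v) = p u + p v → ∃ r : ℝ, 0 ≤ r ∧ v = (r : 𝕜) • u

theorem norm_ofReal_nonneg {r : ℝ} (hr : 0 ≤ r) : ‖(r : 𝕜)‖ = r := by
  rw [RCLike.norm_ofReal, abs_of_nonneg hr]

theorem p_smul_real (p : Seminorm 𝕜 E) {r : ℝ} (hr : 0 ≤ r) (x : E) : p ((r : 𝕜) • x) = r * p x := by
  rw [map_smul_eq_mul, norm_ofReal_nonneg hr]

/-- A strictly convex equivalent norm is rotund in all directions. -/
theorem rotDir_of_strict {p : Seminorm 𝕜 E} (hp : IsEquivNorm p) (hs : IsStrictlyConvex p) {u : E}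
    (hu : u ≠ 0) : RotDir p u := by
  intro v hv
  by_cases hv0 : v = 0
  · exact ⟨0, le_rfl, by simp [hv0]⟩
  have ha := hp.pos hu
  have hb := hp.pos hv0
  set a := p u with ha'
  set b := p v with hb'
  have ha𝕜 : (a : 𝕜) ≠ 0 := by exact_mod_cast ha.ne'
  have hb𝕜 : (b : 𝕜) ≠ 0 := by exact_mod_cast hb.ne'
  set x := ((a⁻¹ : ℝ) : 𝕜) • u with hx
  set y := ((b⁻¹ : ℝ) : 𝕜) • v with hy
  have hpx : p x = 1 := by rw [hx, p_smul_real p (by positivity), ← ha', inv_mul_cancel₀ ha.ne']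
  have hpy : p y = 1 := by rw [hy, p_smul_real p (by positivity), ← hb', inv_mul_cancel₀ hb.ne']
  have hux : u = (a : 𝕜) • x := by
    rw [hx, smul_smul]; push_cast; rw [mul_inv_cancel₀ ha𝕜, one_smul]
  have hvy : v = (b : 𝕜) • y := by
    rw [hy, smul_smul]; push_cast; rw [mul_inv_cancel₀ hb𝕜, one_smul]
  have hxy : x = y := by
    by_contra hne
    have h1 := hs x y hpx hpy hne
    have h2 : p (x + y) < 2 := by
      have : (1 / 2 : 𝕜) = ((1 / 2 : ℝ) : 𝕜) := by push_cast; rfl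
      rw [this, p_smul_real p (by norm_num)] at h1
      linarith
    rcases le_total a b with hab | hab
    · have e : u + v = (a : 𝕜) • (x + y) + ((b - a : ℝ) : 𝕜) • y := by
        rw [hux, hvy]; push_cast; module
      have h3 : p (u + v) ≤ a * p (x + y) + (b - a) * p y := by
        rw [e]
        refine (map_add_le_add p _ _).trans ?_
        rw [p_smul_real p ha.le, p_smul_real p (by linarith)]
      rw [hpy, hv] at h3
      nlinarith
    · have e : u + v = (b : 𝕜) • (x + y) + ((a - b : ℝ) : 𝕜) • x := by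
        rw [hux, hvy]; push_cast; module
      have h3 : p (u + v) ≤ b * p (x + y) + (a - b) * p x := by
        rw [e]
        refine (map_add_le_add p _ _).trans ?_
        rw [p_smul_real p hb.le, p_smul_real p (by linarith)]
      rw [hpx, hv] at h3
      nlinarith
  clear_value x y
  refine ⟨b / a, by positivity, ?_⟩
  calc v = (b : 𝕜) • x := by rw [hxy]; exact hvy
    _ = ((b / a : ℝ) : 𝕜) • ((a : 𝕜) • x) := by
        rw [smul_smul]
        push_cast
        rw [div_mul_cancel₀ _ ha𝕜]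
    _ = ((b / a : ℝ) : 𝕜) • u := by rw [← hux]

/-- If an open set `V` misses the uniqueness set, no nearest point of a point of `V` is seen in a direction
of strict convexity. -/
theorem not_rotDir {p : Seminorm 𝕜 E} (hp : IsEquivNorm p) {G V : Set E} (hV : IsOpen V)
    (hVG : ∀ x ∈ V, x ∉ uniqSet p G) {x g : E} (hx : x ∈ V) (hg : g ∈ nearestPoints p G x) :
    ¬ RotDir p (x - g) := by
  intro hrot
  have hg' := mem_nearest.1 hg
  have hxg : x - g ≠ 0 := by
    intro h0
    apply hVG x hx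
    have hz : ∀ w ∈ nearestPoints p G x, w = x := by
      intro w hw
      have h1 := (mem_nearest.1 hw).2 g hg'.1
      rw [h0, map_zero] at h1
      have h2 := hp.eq_zero (le_antisymm h1 (apply_nonneg p _))
      exact (sub_eq_zero.1 h2).symm
    intro w hw w' hw'
    rw [hz w hw, hz w' hw']
  have hr0 := hp.pos hxg
  set r := p (x - g) with hr
  obtain ⟨ε, hε, hball⟩ := Metric.isOpen_iff.1 hV x hx
  have hn0 : 0 < ‖x - g‖ := norm_pos_iff.2 hxg
  obtain ⟨t, ht0, ht1, htε⟩ : ∃ t : ℝ, 0 < t ∧ t < 1 ∧ t * ‖x - g‖ < ε := by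
    refine ⟨min (1 / 2) (ε / (2 * ‖x - g‖)), by positivity, ?_, ?_⟩
    · exact lt_of_le_of_lt (min_le_left _ _) (by norm_num)
    · calc min (1 / 2) (ε / (2 * ‖x - g‖)) * ‖x - g‖ ≤ ε / (2 * ‖x - g‖) * ‖x - g‖ :=
            mul_le_mul_of_nonneg_right (min_le_right _ _) hn0.le
        _ = ε / 2 := by field_simp
        _ < ε := by linarith
  have ht𝕜 : (t : 𝕜) ≠ 0 := by exact_mod_cast ht0.ne'
  set x' := x - (t : 𝕜) • (x - g) with hx'
  have hxx : x - x' = (t : 𝕜) • (x - g) := by rw [hx']; abel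
  have hx'g : x' - g = ((1 - t : ℝ) : 𝕜) • (x - g) := by
    rw [hx']; push_cast; module
  have hx'gn : p (x' - g) = (1 - t) * r := by
    rw [hx'g, p_smul_real p (by linarith)]
  have hxxn : p (x - x') = t * r := by rw [hxx, p_smul_real p ht0.le]
  have hx'V : x' ∈ V := by
    apply hball
    rw [mem_ball', dist_eq_norm, hxx, norm_smul, norm_ofReal_nonneg ht0.le]
    exact htε
  obtain ⟨g', hg'n, hne'⟩ : ∃ g' ∈ nearestPoints p G x', g' ≠ g := by
    by_contra hcon
    push Not at hcon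
    exact hVG x' hx'V fun a ha b hb => (hcon a ha).trans (hcon b hb).symm
  have hg'm := mem_nearest.1 hg'n
  have a1 : p (x' - g') ≤ (1 - t) * r := (hg'm.2 g hg'.1).trans hx'gn.le
  have a2 : r ≤ p (x - g') := hg'.2 g' hg'm.1
  have a3 : p (x - g') ≤ p (x - x') + p (x' - g') := by
    have : x - g' = (x - x') + (x' - g') := by abel
    rw [this]; exact map_add_le_add p _ _
  have a4 : p (x' - g') = (1 - t) * r := by linarith
  have a5 : p (x - g') = r := by linarith
  obtain ⟨l, hl, hlv⟩ := hrot (((t⁻¹ : ℝ) : 𝕜) • (x' - g')) (by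
    have e : (x - g) + ((t⁻¹ : ℝ) : 𝕜) • (x' - g') = ((t⁻¹ : ℝ) : 𝕜) • (x - g') := by
      have : x - g' = (t : 𝕜) • (x - g) + (x' - g') := by rw [← hxx]; abel
      rw [this, smul_add, smul_smul]
      push_cast
      rw [inv_mul_cancel₀ ht𝕜, one_smul]
    rw [e, p_smul_real p (by positivity), p_smul_real p (by positivity), a4, a5, ← hr]
    field_simp
    ring)
  have h6 := congrArg p hlv
  rw [p_smul_real p (by positivity), p_smul_real p hl, a4, ← hr] at h6
  have hl2 : l = t⁻¹ * (1 - t) := by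
    have : l * r = (t⁻¹ * (1 - t)) * r := by rw [← h6]; ring
    exact mul_right_cancel₀ hr0.ne' this
  apply hne'
  have h7 : x' - g' = x' - g := by
    rw [hx'g]
    have h8 := congrArg (fun w => (t : 𝕜) • w) hlv
    simp only [smul_smul] at h8
    rw [hl2] at h8
    push_cast at h8
    rw [mul_inv_cancel₀ ht𝕜, one_smul, ← mul_assoc, mul_inv_cancel₀ ht𝕜, one_mul] at h8
    rw [h8]
    push_cast
    rfl
  exact sub_right_injective h7

end Pool.Agent.Y280.UG
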