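import Pool.Agent.Y280.UG.Basic

set_option autoImplicit false

open Set Metric Topology Filter

namespace Pool.Agent.Y280.UG

variable {𝕜 : Type*} [RCLike 𝕜] {E : Type*} [NormedAddCommGroup E] [NormedSpace 𝕜 E]

section construction

variable (q : Seminorm 𝕜 E) (f : E →L[𝕜] 𝕜) (z e : E)

/-- the projection along `z` -/
noncomputable def Pm : E →ₗ[𝕜] E := LinearMap.id - (f : E →ₗ[𝕜] 𝕜).smulRight z

/-- the second map -/
noncomputable def Bm : E →ₗ[𝕜] E := Pm f z - (f : E →ₗ[𝕜] 𝕜).smulRight e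

theorem Pm_apply (x : E) : Pm f z x = x - f x • z := by simp [Pm]

theorem Bm_apply (x : E) : Bm f z e x = x - f x • z - f x • e := by simp [Bm, Pm_apply]

/-- the new norm -/
noncomputable def newN : Seminorm 𝕜 E := q.comp (Pm f z) + q.comp (Bm f z e)

theorem newN_apply (x : E) : newN q f z e x = q (x - f x • z) + q (x - f x • z - f x • e) := by
  rw [newN, Seminorm.add_apply, Seminorm.comp_apply, Seminorm.comp_apply, Pm_apply, Bm_apply]

variable {q f z e}

theorem newN_equiv (hq : IsEquivNorm q) (he : e ≠ 0) : IsEquivNorm (newN q f z e) := by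
  have hqe := hq.pos he
  obtain ⟨a, b, ha, hb, hab⟩ := id hq
  have hqz : 0 ≤ q z := apply_nonneg q z
  refine ⟨a / (1 + q z / q e), 2 * (b * (1 + ‖f‖ * ‖z‖ + ‖f‖ * ‖e‖)), by positivity, by positivity, fun x => ⟨?_, ?_⟩⟩
  · rw [newN_apply]
    set A := q (x - f x • z) with hA
    set B := q (x - f x • z - f x • e) with hB
    have hA0 : 0 ≤ A := apply_nonneg q _
    have hB0 : 0 ≤ B := apply_nonneg q _
    have h1 : ‖f x‖ * q e ≤ A + B := by
      have : f x • e = (x - f x • z) - (x - f x • z - f x • e) := by abel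
      have h2 : q (f x • e) ≤ A + B := by rw [this]; exact map_sub_le_add q _ _
      rwa [map_smul_eq_mul] at h2
    have h2 : q x ≤ A + ‖f x‖ * q z := by
      have : x = (x - f x • z) + f x • z := by abel
      calc q x = q ((x - f x • z) + f x • z) := by rw [← this]
        _ ≤ A + q (f x • z) := map_add_le_add q _ _
        _ = _ := by rw [map_smul_eq_mul]
    have h3 : ‖f x‖ ≤ (A + B) / q e := by rw [le_div_iff₀ hqe]; exact h1
    have h4 : q x ≤ (A + B) * (1 + q z / q e) := by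
      have h5 : ‖f x‖ * q z ≤ (A + B) / q e * q z := mul_le_mul_of_nonneg_right h3 hqz
      have h6 : (A + B) / q e * q z = (A + B) * (q z / q e) := by ring
      nlinarith
    rw [div_mul_eq_mul_div, div_le_iff₀ (by positivity)]
    exact (hab x).1.trans h4
  · rw [newN_apply]
    have hfx : ‖f x‖ ≤ ‖f‖ * ‖x‖ := f.le_opNorm x
    have n1 : ‖x - f x • z‖ ≤ (1 + ‖f‖ * ‖z‖ + ‖f‖ * ‖e‖) * ‖x‖ := by
      have := norm_sub_le x (f x • z)
      rw [norm_smul] at this
      have h2 := mul_le_mul_of_nonneg_right hfx (norm_nonneg z)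
      have h3 : 0 ≤ ‖f‖ * ‖e‖ * ‖x‖ := by positivity
      nlinarith
    have n2 : ‖x - f x • z - f x • e‖ ≤ (1 + ‖f‖ * ‖z‖ + ‖f‖ * ‖e‖) * ‖x‖ := by
      have h0 := norm_sub_le x (f x • z)
      have := norm_sub_le (x - f x • z) (f x • e)
      rw [norm_smul] at this h0
      have h2 := mul_le_mul_of_nonneg_right hfx (norm_nonneg z)
      have h3 := mul_le_mul_of_nonneg_right hfx (norm_nonneg e)
      nlinarith
    have m1 := (hab (x - f x • z)).2.trans (mul_le_mul_of_nonneg_left n1 hb.le)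
    have m2 := (hab (x - f x • z - f x • e)).2.trans (mul_le_mul_of_nonneg_left n2 hb.le)
    linarith

theorem newN_not_strict (hq : IsEquivNorm q) (he : e ≠ 0) (hfz : f z = 1) (hfe : f e = 0) :
    ¬ IsStrictlyConvex (newN q f z e) := by
  have hqe := hq.pos he
  set c : ℝ := (q e)⁻¹ with hc
  have hc0 : 0 < c := by positivity
  intro hs
  have hz : newN q f z e z = q e := by
    rw [newN_apply, hfz]
    simp
  have hze : newN q f z e (z + e) = q e := by
    rw [newN_apply, map_add, hfz, hfe]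
    simp
  have hm : newN q f z e (z + z + e) = 2 * q e := by
    rw [newN_apply, map_add, map_add, hfz, hfe]
    have e1 : z + z + e - (1 + 1 + 0 : 𝕜) • z = e := by module
    have e2 : e - (1 + 1 + 0 : 𝕜) • e = -e := by module
    rw [e1, e2, map_neg_eq_map]
    ring
  have h1 := hs ((c : 𝕜) • z) ((c : 𝕜) • (z + e))
    (by rw [p_smul_real _ hc0.le, hz, hc, inv_mul_cancel₀ hqe.ne'])
    (by rw [p_smul_real _ hc0.le, hze, hc, inv_mul_cancel₀ hqe.ne'])
    (by
      intro h
      have hc𝕜 : (c : 𝕜) ≠ 0 := by exact_mod_cast hc0.ne'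
      have h2 : z = z + e := smul_right_injective E hc𝕜 h
      exact he (by simpa using h2.symm))
  have h3 : (1 / 2 : 𝕜) • ((c : 𝕜) • z + (c : 𝕜) • (z + e)) = ((c / 2 : ℝ) : 𝕜) • (z + z + e) := by
    push_cast
    module
  rw [h3, p_smul_real _ (by positivity), hm, hc] at h1
  have : (q e)⁻¹ / 2 * (2 * q e) = 1 := by field_simp
  linarith

theorem newN_rotDir (hq : ∀ u : E, u ≠ 0 → RotDir q u) (he : e ≠ 0) {u : E}
    (hu : ∀ c : 𝕜, u - f u • z ≠ c • e) : RotDir (newN q f z e) u := by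
  intro v hv
  rw [newN_apply, newN_apply, newN_apply] at hv
  have e1 : u + v - f (u + v) • z = (u - f u • z) + (v - f v • z) := by
    rw [map_add]; module
  have e2 : u + v - f (u + v) • z - f (u + v) • e = (u - f u • z - f u • e) + (v - f v • z - f v • e) := by
    rw [map_add]; module
  rw [e2, e1] at hv
  have t1 := map_add_le_add q (u - f u • z) (v - f v • z)
  have t2 := map_add_le_add q (u - f u • z - f u • e) (v - f v • z - f v • e)
  have q1 : q ((u - f u • z) + (v - f v • z)) = q (u - f u • z) + q (v - f v • z) := by linarith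
  have q2 : q ((u - f u • z - f u • e) + (v - f v • z - f v • e)) =
    q (u - f u • z - f u • e) + q (v - f v • z - f v • e) := by linarith
  have h1 : u - f u • z ≠ 0 := by have := hu 0; rwa [zero_smul] at this
  have h2 : u - f u • z - f u • e ≠ 0 := fun h => hu (f u) (sub_eq_zero.1 h)
  obtain ⟨r, hr, hr'⟩ := hq _ h1 _ q1
  obtain ⟨s, hs, hs'⟩ := hq _ h2 _ q2
  have hrs : r = s := by
    by_contra hne
    have hne' : (((r - s : ℝ)) : 𝕜) ≠ 0 := by exact_mod_cast sub_ne_zero.2 hne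
    apply hu (((r - s : ℝ) : 𝕜)⁻¹ * (f v - (s : 𝕜) * f u))
    have key : ((r - s : ℝ) : 𝕜) • (u - f u • z) = (f v - (s : 𝕜) * f u) • e := by
      have : ((r - s : ℝ) : 𝕜) • (u - f u • z) = (r : 𝕜) • (u - f u • z) - (s : 𝕜) • (u - f u • z - f u • e)
          - ((s : 𝕜) * f u) • e := by
        push_cast; module
      rw [this, ← hr', ← hs']
      module
    rw [mul_smul, ← key, smul_smul, inv_mul_cancel₀ hne', one_smul]
  rw [hrs] at hr'
  have hfv : f v = (s : 𝕜) * f u := by
    have h5 : (f v - (s : 𝕜) * f u) • e = 0 := by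
      have : (f v - (s : 𝕜) * f u) • e = (v - f v • z) - (v - f v • z - f v • e) - ((s : 𝕜) * f u) • e := by
        module
      rw [this, hs', hr']
      module
    rcases smul_eq_zero.1 h5 with h6 | h6
    · exact sub_eq_zero.1 h6
    · exact absurd h6 he
  refine ⟨s, hs, ?_⟩
  have : v = (v - f v • z) + f v • z := by abel
  rw [this, hr', hfv]
  module

/-- For the new norm the uniqueness sets of closed boundedly compact sets are dense, in infinite dimension. -/
theorem newN_dense (hq : IsEquivNorm q) (hq' : ∀ u : E, u ≠ 0 → RotDir q u) (he : e ≠ 0)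
    (hE : ¬ FiniteDimensional 𝕜 E) {G : Set E} (hG : ClosedBoundedlyCompact G) :
    Dense (uniqSet (newN q f z e) G) := by
  set p := newN q f z e with hp
  have hpe : IsEquivNorm p := newN_equiv hq he
  rw [dense_iff_inter_open]
  intro V hV hVne
  by_contra hcon
  have hVG : ∀ x ∈ V, x ∉ uniqSet p G := fun x hx hx2 => hcon ⟨x, hx, hx2⟩
  have hnear : ∀ x ∈ V, ∃ g ∈ nearestPoints p G x, ∃ c : 𝕜, (x - g) - f (x - g) • z = c • e := by
    intro x hx
    have h1 : (nearestPoints p G x).Nonempty := by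
      by_contra h0
      rw [not_nonempty_iff_eq_empty] at h0
      exact hVG x hx (by rw [uniqSet, mem_setOf_eq, h0]; exact subsingleton_empty)
    obtain ⟨g, hg⟩ := h1
    refine ⟨g, hg, ?_⟩
    by_contra hc
    push Not at hc
    exact not_rotDir hpe hV hVG hx hg (newN_rotDir hq' he hc)
  obtain ⟨x₀, hx₀⟩ := hVne
  obtain ⟨g₀, hg₀, -⟩ := hnear x₀ hx₀
  obtain ⟨ε, hε, hball⟩ := Metric.isOpen_iff.1 hV x₀ hx₀
  obtain ⟨a, b, ha, hb, hab⟩ := id hpe
  set δ := ε / 2 with hδ
  have hδ0 : 0 < δ := by positivity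
  set S := b / a * (δ + ‖x₀ - g₀‖) with hS
  have hS0 : 0 ≤ S := by positivity
  set M := max (‖f‖ * S) ((S + ‖f‖ * S * ‖z‖) / ‖e‖) with hM
  have he0 : 0 < ‖e‖ := norm_pos_iff.2 he
  apply hE
  have hK : IsCompact ((fun w : E × 𝕜 × 𝕜 => w.1 + w.2.1 • e + w.2.2 • z - x₀) ''
      ((G ∩ closedBall 0 (S + δ + ‖x₀‖)) ×ˢ (closedBall (0 : 𝕜) M ×ˢ closedBall (0 : 𝕜) M))) :=
    ((hG _).prod ((isCompact_closedBall _ _).prod (isCompact_closedBall _ _))).image (by fun_prop)
  have hsub : closedBall (0 : E) δ ⊆ ((fun w : E × 𝕜 × 𝕜 => w.1 + w.2.1 • e + w.2.2 • z - x₀) ''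
      ((G ∩ closedBall 0 (S + δ + ‖x₀‖)) ×ˢ (closedBall (0 : 𝕜) M ×ˢ closedBall (0 : 𝕜) M))) := by
    intro h hh
    rw [mem_closedBall_zero_iff] at hh
    have hx : x₀ + h ∈ V := by
      apply hball
      rw [mem_ball, dist_eq_norm, add_sub_cancel_left]
      linarith
    obtain ⟨g, hg, c, hc⟩ := hnear _ hx
    have h1 : p (x₀ + h - g) ≤ p (x₀ + h - g₀) := (mem_nearest.1 hg).2 g₀ (mem_nearest.1 hg₀).1
    have h2 := (hab (x₀ + h - g)).1
    have h3 := (hab (x₀ + h - g₀)).2
    have h4 : ‖x₀ + h - g₀‖ ≤ δ + ‖x₀ - g₀‖ := by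
      have : x₀ + h - g₀ = h + (x₀ - g₀) := by abel
      rw [this]
      exact (norm_add_le _ _).trans (by linarith)
    have h5 : ‖x₀ + h - g‖ ≤ S := by
      have : a * ‖x₀ + h - g‖ ≤ b * (δ + ‖x₀ - g₀‖) :=
        (h2.trans (h1.trans h3)).trans (mul_le_mul_of_nonneg_left h4 hb.le)
      rw [hS, div_mul_eq_mul_div, le_div_iff₀ ha]
      linarith
    set w := x₀ + h - g with hw
    have hfw : ‖f w‖ ≤ ‖f‖ * S := (f.le_opNorm w).trans (mul_le_mul_of_nonneg_left h5 (norm_nonneg _))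
    refine ⟨(g, c, f w), ⟨⟨(mem_nearest.1 hg).1, ?_⟩, ?_, ?_⟩, ?_⟩
    · rw [mem_closedBall_zero_iff]
      have : g = x₀ + h - w := by rw [hw]; abel
      rw [this]
      calc ‖x₀ + h - w‖ ≤ ‖x₀ + h‖ + ‖w‖ := norm_sub_le _ _
        _ ≤ (‖x₀‖ + ‖h‖) + ‖w‖ := by gcongr; exact norm_add_le _ _
        _ ≤ _ := by linarith
    · rw [mem_closedBall_zero_iff]
      refine le_trans ?_ (le_max_right _ _)
      rw [le_div_iff₀ he0, ← norm_smul, ← hc]
      calc ‖w - f w • z‖ ≤ ‖w‖ + ‖f w • z‖ := norm_sub_le _ _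
        _ = ‖w‖ + ‖f w‖ * ‖z‖ := by rw [norm_smul]
        _ ≤ _ := by gcongr
    · rw [mem_closedBall_zero_iff]
      exact hfw.trans (le_max_left _ _)
    · show g + c • e + f w • z - x₀ = h
      rw [← hc, hw]
      abel
  exact FiniteDimensional.of_isCompact_closedBall 𝕜 hδ0
    (hK.of_isClosed_subset isClosed_closedBall hsub)

end construction

end Pool.Agent.Y280.UG
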